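import Pool.Agent.helper26.EC.SpecE

/-!
# Row ec:MTP: sieve weights on numbers and on sets of primes
-/

set_option autoImplicit false

namespace Pool.Agent.EC

open Finset ArithmeticFunction

/-- The prime factors of a number in the support of admissible weights. -/
theorem MTP_pf {K Q Q' : ℝ} {l : ℕ → ℝ} (h : Adm K Q l) (hQ : Q ≤ Q') {m : ℕ} (hm : l m ≠ 0) :
    m.primeFactors ⊆ PQ Q' ∧ ∏ p ∈ m.primeFactors, p = m ∧ m ≠ 0 ∧ Squarefree m ∧ (m : ℝ) ≤ Q := by
  obtain ⟨hs, hc, hle⟩ := h.2 m hm
  have h0 : m ≠ 0 := hs.ne_zero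
  refine ⟨?_, Nat.prod_primeFactors_of_squarefree hs, h0, hs, hle⟩
  intro p hp
  have hpp : p.Prime := Nat.prime_of_mem_primeFactors hp
  have hpd : p ∣ m := Nat.dvd_of_mem_primeFactors hp
  unfold PQ
  rw [mem_filter, mem_Icc]
  refine ⟨⟨?_, ?_⟩, hpp⟩
  · by_contra hlt
    have hlt : p < 7 := by omega
    have hc2 : Nat.Coprime p 30 := Nat.Coprime.coprime_dvd_left hpd hc
    interval_cases p
    · exact absurd hpp (by decide)
    · exact absurd hpp (by decide)
    · exact absurd hc2 (by decide)
    · exact absurd hc2 (by decide)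
    · exact absurd hc2 (by decide)
    · exact absurd hc2 (by decide)
    · exact absurd hc2 (by decide)
  · apply Nat.le_floor
    have h1 : (p : ℝ) ≤ m := by exact_mod_cast Nat.le_of_dvd (Nat.pos_of_ne_zero h0) hpd
    linarith

/-- The prime factors of the product of a set of primes. -/
theorem MTP_pp {Q' : ℝ} {D : Finset ℕ} (hD : D ⊆ PQ Q') : (∏ p ∈ D, p).primeFactors = D := by
  apply Nat.primeFactors_prod
  intro p hp
  have h1 := hD hp
  unfold PQ at h1
  exact (mem_filter.1 h1).2

/-- The totient of a squarefree number. -/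
theorem MTP_tot {m : ℕ} (hs : Squarefree m) :
    (Nat.totient m : ℝ) = ∏ p ∈ m.primeFactors, ((p : ℝ) - 1) := by
  have h1 := Nat.totient_mul_prod_primeFactors m
  rw [Nat.prod_primeFactors_of_squarefree hs, mul_comm] at h1
  have h2 := Nat.eq_of_mul_eq_mul_left (Nat.pos_of_ne_zero hs.ne_zero) h1
  rw [h2, Nat.cast_prod]
  refine prod_congr rfl fun p hp => ?_
  rw [Nat.cast_sub (Nat.prime_of_mem_primeFactors hp).one_le, Nat.cast_one]

/-- **Row ec:MTP.** -/
theorem MTP : MTP_stmt := by
  refine ⟨?_, ?_⟩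
  · intro K Q Q' l h hQ
    unfold mt
    refine sum_bij_ne_zero (fun m _ _ => m.primeFactors) ?_ ?_ ?_ ?_
    · intro m _ hne
      have hm : l m ≠ 0 := by
        intro h0
        rw [h0, zero_div] at hne
        exact hne rfl
      exact mem_powerset.2 (MTP_pf h hQ hm).1
    · intro m _ hne m' _ hne' he
      have hm : l m ≠ 0 := by
        intro h0
        rw [h0, zero_div] at hne
        exact hne rfl
      have hm' : l m' ≠ 0 := by
        intro h0
        rw [h0, zero_div] at hne'
        exact hne' rfl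
      rw [← (MTP_pf h hQ hm).2.1, ← (MTP_pf h hQ hm').2.1]
      exact prod_congr he fun _ _ => rfl
    · intro D hD hne
      have hD' := mem_powerset.1 hD
      have hm : l (∏ p ∈ D, p) ≠ 0 := by
        intro h0
        rw [h0, zero_mul] at hne
        exact hne rfl
      obtain ⟨_, _, h0, hs, hle⟩ := MTP_pf h hQ hm
      refine ⟨∏ p ∈ D, p, ?_, ?_, MTP_pp hD'⟩
      · rw [mem_Icc]
        exact ⟨Nat.pos_of_ne_zero h0, Nat.le_floor hle⟩
      · refine div_ne_zero hm ?_
        have := Nat.totient_pos.2 (Nat.pos_of_ne_zero h0)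
        exact_mod_cast this.ne'
    · intro m _ hne
      have hm : l m ≠ 0 := by
        intro h0
        rw [h0, zero_div] at hne
        exact hne rfl
      obtain ⟨_, he, _, hs, _⟩ := MTP_pf h hQ hm
      rw [he, MTP_tot hs, prod_div_distrib, prod_const_one, div_eq_mul_one_div]
  · intro K Q Q' l h hQ a ha
    unfold wt
    refine sum_bij_ne_zero (fun m _ _ => m.primeFactors) ?_ ?_ ?_ ?_
    · intro m hma hm
      rw [mem_powerset]
      intro p hp
      rw [mem_filter]
      exact ⟨(MTP_pf h hQ hm).1 hp, (Nat.dvd_of_mem_primeFactors hp).trans (Nat.dvd_of_mem_divisors hma)⟩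
    · intro m _ hm m' _ hm' he
      rw [← (MTP_pf h hQ hm).2.1, ← (MTP_pf h hQ hm').2.1]
      exact prod_congr he fun _ _ => rfl
    · intro D hD hm
      have hD' := mem_powerset.1 hD
      have hD2 : D ⊆ PQ Q' := hD'.trans (filter_subset _ _)
      refine ⟨∏ p ∈ D, p, ?_, hm, MTP_pp hD2⟩
      rw [Nat.mem_divisors]
      refine ⟨?_, by omega⟩
      apply prod_primes_dvd
      · intro p hp
        have h1 := hD2 hp
        unfold PQ at h1
        exact (mem_filter.1 h1).2.prime
      · intro p hp
        exact (mem_filter.1 (hD' hp)).2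
    · intro m _ hm
      rw [(MTP_pf h hQ hm).2.1]

end Pool.Agent.EC
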