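import Pool.Agent.helper26.EC.SpecE

/-!
# Row ec:CRD: two sieves together, with a divisor
-/

set_option autoImplicit false

namespace Pool.Agent.EC

open Finset ArithmeticFunction

theorem CRD_prime {Q : ℝ} {D : Finset ℕ} (hD : D ⊆ PQ Q) {p : ℕ} (hp : p ∈ D) : p.Prime ∧ 7 ≤ p := by
  have h1 := hD hp
  unfold PQ at h1
  rw [mem_filter, mem_Icc] at h1
  exact ⟨h1.2, h1.1.1⟩

/-- Prime divisors of numbers prime to `30` are at least `7`. -/
theorem CRD_seven {m p : ℕ} (hc : Nat.Coprime m 30) (hpp : p.Prime) (hpd : p ∣ m) : 7 ≤ p := by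
  by_contra hlt
  have hlt : p < 7 := by omega
  have hc2 : Nat.Coprime p 30 := Nat.Coprime.coprime_dvd_left hpd hc
  interval_cases p
  · exact absurd hpp (by decide)
  · exact absurd hpp (by decide)
  · exact absurd hc2 (by decide)
  · exact absurd hc2 (by decide)
  · exact absurd hc2 (by decide)
  · exact absurd hc2 (by decide)
  · exact absurd hc2 (by decide)

/-- The prime factors of a number in the support of admissible weights. -/
theorem CRD_pf {K Q Q' : ℝ} {l : ℕ → ℝ} (h : Adm K Q l) (hQ : Q ≤ Q') {m : ℕ} (hm : l m ≠ 0) :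
    m.primeFactors ⊆ PQ Q' ∧ ∏ p ∈ m.primeFactors, p = m ∧ m ≠ 0 ∧ (m : ℝ) ≤ Q := by
  obtain ⟨hs, hc, hle⟩ := h.2 m hm
  have h0 : m ≠ 0 := hs.ne_zero
  refine ⟨?_, Nat.prod_primeFactors_of_squarefree hs, h0, hle⟩
  intro p hp
  have hpp : p.Prime := Nat.prime_of_mem_primeFactors hp
  have hpd : p ∣ m := Nat.dvd_of_mem_primeFactors hp
  unfold PQ
  rw [mem_filter, mem_Icc]
  refine ⟨⟨CRD_seven hc hpp hpd, ?_⟩, hpp⟩
  apply Nat.le_floor
  have h1 : (p : ℝ) ≤ m := by exact_mod_cast Nat.le_of_dvd (Nat.pos_of_ne_zero h0) hpd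
  linarith

/-- The sum over the subsets of a set of primes. -/
theorem CRD_wt (hMTP : MTP_stmt) {K Q Q' : ℝ} {l : ℕ → ℝ} (h : Adm K Q l) (hQ : Q ≤ Q') {B : Finset ℕ}
    (hB : B ⊆ PQ Q') : ∑ D ∈ B.powerset, l (∏ p ∈ D, p) = wt l (∏ p ∈ B, p) := by
  have hpos : 1 ≤ ∏ p ∈ B, p := by
    apply Nat.succ_le_of_lt
    exact prod_pos fun p hp => (CRD_prime hB hp).1.pos
  rw [hMTP.2 K Q Q' l h hQ _ hpos]
  have e : (PQ Q').filter (· ∣ ∏ p ∈ B, p) = B := by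
    ext p
    rw [mem_filter]
    constructor
    · rintro ⟨hp, hd⟩
      have hpp : p.Prime := (CRD_prime (Subset.refl (PQ Q')) hp).1
      rw [hpp.prime.dvd_finsetProd_iff] at hd
      obtain ⟨q, hq, hpq⟩ := hd
      rw [(Nat.prime_dvd_prime_iff_eq hpp (CRD_prime hB hq).1).1 hpq]
      exact hq
    · intro hp
      exact ⟨hB hp, dvd_prod_of_mem _ hp⟩
  rw [e]

/-- The left side as a sum over pairs of sets of primes. -/
theorem CRD_lhs {K Q K' Q' : ℝ} {l lam : ℕ → ℝ} (d : ℕ) (hl : Adm K Q l) (hlam : Adm K' Q' lam) :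
    ∑ m ∈ Icc 1 ⌊Q⌋₊ with Nat.Coprime m d, ∑ t ∈ Icc 1 ⌊Q'⌋₊ with Nat.Coprime m t,
        l m * lam t / ((m : ℝ) * t) =
      ∑ w ∈ (PQ (max Q Q')).powerset ×ˢ (PQ (max Q Q')).powerset with Disjoint w.1 w.2,
        (if Disjoint w.1 ((PQ (max Q Q')).filter (· ∣ d)) then l (∏ p ∈ w.1, p) else 0) *
          lam (∏ p ∈ w.2, p) / ((∏ p ∈ w.1, (p : ℝ)) * ∏ p ∈ w.2, (p : ℝ)) := by
  classical
  have e1 : ∑ m ∈ Icc 1 ⌊Q⌋₊ with Nat.Coprime m d, ∑ t ∈ Icc 1 ⌊Q'⌋₊ with Nat.Coprime m t,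
        l m * lam t / ((m : ℝ) * t) =
      ∑ z ∈ (Icc 1 ⌊Q⌋₊ ×ˢ Icc 1 ⌊Q'⌋₊).filter (fun z => Nat.Coprime z.1 d ∧ Nat.Coprime z.1 z.2),
        l z.1 * lam z.2 / ((z.1 : ℝ) * z.2) := by
    rw [sum_filter, sum_filter, sum_product]
    refine sum_congr rfl fun m _ => ?_
    by_cases hmd : Nat.Coprime m d
    · rw [if_pos hmd, sum_filter]
      refine sum_congr rfl fun t _ => ?_
      by_cases hmt : Nat.Coprime m t
      · rw [if_pos hmt, if_pos ⟨hmd, hmt⟩]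
      · rw [if_neg hmt, if_neg fun h => hmt h.2]
    · rw [if_neg hmd]
      symm
      refine sum_eq_zero fun t _ => ?_
      rw [if_neg fun h => hmd h.1]
  rw [e1]
  have hPl : Q ≤ max Q Q' := le_max_left _ _
  have hPr : Q' ≤ max Q Q' := le_max_right _ _
  have hnz : ∀ z : ℕ × ℕ, l z.1 * lam z.2 / ((z.1 : ℝ) * z.2) ≠ 0 → l z.1 ≠ 0 ∧ lam z.2 ≠ 0 := by
    intro z hz
    constructor
    · intro h0
      rw [h0, zero_mul, zero_div] at hz
      exact hz rfl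
    · intro h0
      rw [h0, mul_zero, zero_div] at hz
      exact hz rfl
  refine sum_bij_ne_zero (fun z _ _ => (z.1.primeFactors, z.2.primeFactors)) ?_ ?_ ?_ ?_
  · intro z hz hne
    obtain ⟨h1, h2⟩ := hnz z hne
    rw [mem_filter, mem_product, mem_powerset, mem_powerset]
    rw [mem_filter] at hz
    exact ⟨⟨(CRD_pf hl hPl h1).1, (CRD_pf hlam hPr h2).1⟩, hz.2.2.disjoint_primeFactors⟩
  · intro z hz hne z' hz' hne' he
    obtain ⟨h1, h2⟩ := hnz z hne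
    obtain ⟨h1', h2'⟩ := hnz z' hne'
    have he1 : z.1.primeFactors = z'.1.primeFactors := congrArg Prod.fst he
    have he2 : z.2.primeFactors = z'.2.primeFactors := congrArg Prod.snd he
    apply Prod.ext
    · rw [← (CRD_pf hl hPl h1).2.1, ← (CRD_pf hl hPl h1').2.1, he1]
    · rw [← (CRD_pf hlam hPr h2).2.1, ← (CRD_pf hlam hPr h2').2.1, he2]
  · intro w hw hne
    rw [mem_filter, mem_product, mem_powerset, mem_powerset] at hw
    obtain ⟨⟨hw1, hw2⟩, hdis⟩ := hw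
    have hS : Disjoint w.1 ((PQ (max Q Q')).filter (· ∣ d)) := by
      by_contra h0
      rw [if_neg h0, zero_mul, zero_div] at hne
      exact hne rfl
    rw [if_pos hS] at hne
    have h1 : l (∏ p ∈ w.1, p) ≠ 0 := by
      intro h0
      rw [h0, zero_mul, zero_div] at hne
      exact hne rfl
    have h2 : lam (∏ p ∈ w.2, p) ≠ 0 := by
      intro h0
      rw [h0, mul_zero, zero_div] at hne
      exact hne rfl
    obtain ⟨_, _, hm0, hmQ⟩ := CRD_pf hl hPl h1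
    obtain ⟨_, _, ht0, htQ⟩ := CRD_pf hlam hPr h2
    refine ⟨(∏ p ∈ w.1, p, ∏ p ∈ w.2, p), ?_, ?_, ?_⟩
    · rw [mem_filter, mem_product, mem_Icc, mem_Icc]
      refine ⟨⟨⟨Nat.pos_of_ne_zero hm0, Nat.le_floor hmQ⟩, ⟨Nat.pos_of_ne_zero ht0, Nat.le_floor htQ⟩⟩,
        ?_, ?_⟩
      · refine Nat.Coprime.prod_left fun p hp => ?_
        rw [(CRD_prime hw1 hp).1.coprime_iff_not_dvd]
        intro hpd
        exact disjoint_left.1 hS hp (mem_filter.2 ⟨hw1 hp, hpd⟩)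
      · refine Nat.Coprime.prod_left fun p hp => Nat.Coprime.prod_right fun q hq => ?_
        rw [Nat.coprime_primes (CRD_prime hw1 hp).1 (CRD_prime hw2 hq).1]
        rintro rfl
        exact disjoint_left.1 hdis hp hq
    · refine div_ne_zero (mul_ne_zero h1 h2) (mul_ne_zero ?_ ?_)
      · exact_mod_cast hm0
      · exact_mod_cast ht0
    · apply Prod.ext
      · exact Nat.primeFactors_prod fun p hp => (CRD_prime hw1 hp).1
      · exact Nat.primeFactors_prod fun p hp => (CRD_prime hw2 hp).1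
  · intro z hz hne
    obtain ⟨h1, h2⟩ := hnz z hne
    rw [mem_filter] at hz
    have hS : Disjoint z.1.primeFactors ((PQ (max Q Q')).filter (· ∣ d)) := by
      rw [disjoint_left]
      intro p hp hq
      have hpp := Nat.prime_of_mem_primeFactors hp
      have h3 := Nat.dvd_of_mem_primeFactors hp
      have h4 := (mem_filter.1 hq).2
      have h5 : p ∣ Nat.gcd z.1 d := Nat.dvd_gcd h3 h4
      have h6 : Nat.gcd z.1 d = 1 := hz.2.1
      rw [h6] at h5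
      exact hpp.one_lt.ne' (Nat.dvd_one.1 h5)
    have e2 : ∏ p ∈ z.1.primeFactors, (p : ℝ) = z.1 := by
      rw [← Nat.cast_prod, (CRD_pf hl hPl h1).2.1]
    have e3 : ∏ p ∈ z.2.primeFactors, (p : ℝ) = z.2 := by
      rw [← Nat.cast_prod, (CRD_pf hlam hPr h2).2.1]
    dsimp only
    rw [if_pos hS, (CRD_pf hl hPl h1).2.1, (CRD_pf hlam hPr h2).2.1, e2, e3]

/-- **Row ec:CRD.** -/
theorem CRD (hMTP : MTP_stmt) (hMTA : MTA_stmt) (hCPD : CPD_stmt) (hCRR : CRR_stmt) : CRD_stmt := by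
  classical
  intro K Q K' Q' l lam d hl hlam hd1 hd30 hwl hwlam
  rw [CRD_lhs d hl hlam]
  have hPl : Q ≤ max Q Q' := le_max_left _ _
  have hPr : Q' ≤ max Q Q' := le_max_right _ _
  set P := PQ (max Q Q') with hP
  set S := P.filter (· ∣ d) with hS
  have hp7 : ∀ p ∈ P, p.Prime ∧ 7 ≤ p := fun p hp => CRD_prime (Subset.refl _) hp
  have hp7r : ∀ p ∈ P, (7 : ℝ) ≤ p := fun p hp => by exact_mod_cast (hp7 p hp).2
  have hp3 : ∀ p ∈ P, 3 ≤ p := fun p hp => by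
    have := (hp7 p hp).2
    omega
  set ξ : Finset ℕ → ℝ := fun D => if Disjoint D S then l (∏ p ∈ D, p) else 0 with hξ
  set η : Finset ℕ → ℝ := fun D => lam (∏ p ∈ D, p) with hη
  have hprod1 : ∀ B : Finset ℕ, B ⊆ P → 1 ≤ ∏ p ∈ B, p := by
    intro B hB
    apply Nat.succ_le_of_lt
    exact prod_pos fun p hp => (hp7 p (hB hp)).1.pos
  have hξ0 : ∀ A ⊆ P, 0 ≤ ∑ D ∈ A.powerset, ξ D := by
    intro A hA
    have e : ∑ D ∈ A.powerset, ξ D = ∑ D ∈ (A \ S).powerset, l (∏ p ∈ D, p) := by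
      rw [hξ, ← sum_filter]
      refine sum_congr ?_ fun _ _ => rfl
      ext D
      rw [mem_filter, mem_powerset, mem_powerset, subset_sdiff]
    rw [e, CRD_wt hMTP hl hPl (sdiff_subset.trans hA)]
    exact hwl _ (hprod1 _ (sdiff_subset.trans hA))
  have hη0 : ∀ A ⊆ P, 0 ≤ ∑ D ∈ A.powerset, η D := by
    intro A hA
    rw [hη]
    dsimp only
    rw [CRD_wt hMTP hlam hPr hA]
    exact hwlam _ (hprod1 _ hA)
  have h1 := hCRR.1 P ξ η hp3 hξ0 hη0
  have h2 := hCRR.2 P hp3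
  have hη1 : ∑ D ∈ P.powerset, η D * ∏ p ∈ D, 1 / ((p : ℝ) - 1) = mt Q' lam := by
    rw [hMTP.1 K' Q' (max Q Q') lam hlam hPr]
  have hξ1 : ∑ D ∈ P.powerset, ξ D * ∏ p ∈ D, 1 / ((p : ℝ) - 1) =
      ∑ D ∈ P.powerset with Disjoint D S, l (∏ p ∈ D, p) * ∏ p ∈ D, 1 / ((p : ℝ) - 1) := by
    rw [sum_filter]
    refine sum_congr rfl fun D _ => ?_
    rw [hξ]
    dsimp only
    split_ifs with h
    · rfl
    · rw [zero_mul]
  have hmt0 : 0 ≤ mt Q l := hMTA.1 K Q l hl hwl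
  have hmt0' : 0 ≤ mt Q' lam := hMTA.1 K' Q' lam hlam hwlam
  have h3 : (∏ p ∈ S, (1 - 1 / ((p : ℝ) - 1))) *
      ∑ D ∈ P.powerset with Disjoint D S, l (∏ p ∈ D, p) * ∏ p ∈ D, 1 / ((p : ℝ) - 1) ≤ mt Q l := by
    rw [hMTP.1 K Q (max Q Q') l hl hPl]
    refine hCPD P S (fun p => 1 / ((p : ℝ) - 1)) (fun D => l (∏ p ∈ D, p)) ?_ (filter_subset _ _) ?_
    · intro p hp
      have := hp7r p hp
      constructor
      · apply div_nonneg zero_le_one
        linarith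
      · rw [div_le_one (by linarith)]
        linarith
    · intro A hA
      rw [CRD_wt hMTP hl hPl hA]
      exact hwl _ (hprod1 _ hA)
  have hSd : S ⊆ d.primeFactors := by
    intro p hp
    rw [hS, mem_filter] at hp
    rw [Nat.mem_primeFactors]
    exact ⟨(hp7 p hp.1).1, hp.2, by omega⟩
  have hd7 : ∀ p ∈ d.primeFactors, (7 : ℝ) ≤ p := by
    intro p hp
    exact_mod_cast CRD_seven hd30 (Nat.prime_of_mem_primeFactors hp) (Nat.dvd_of_mem_primeFactors hp)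
  have hge1 : ∀ p ∈ d.primeFactors, (1 : ℝ) ≤ ((p : ℝ) - 1) / (p - 2) := by
    intro p hp
    have := hd7 p hp
    rw [le_div_iff₀ (by linarith)]
    linarith
  have h4 : ∑ D ∈ P.powerset, ξ D * ∏ p ∈ D, 1 / ((p : ℝ) - 1) ≤
      (∏ p ∈ d.primeFactors, ((p : ℝ) - 1) / (p - 2)) * mt Q l := by
    rw [hξ1]
    have hS1 : 0 < ∏ p ∈ S, (1 - 1 / ((p : ℝ) - 1)) := by
      refine prod_pos fun p hp => ?_
      have h7 := hd7 p (hSd hp)
      rw [sub_pos, div_lt_one (by linarith)]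
      linarith
    have hS2 : (∏ p ∈ S, ((p : ℝ) - 1) / (p - 2)) * ∏ p ∈ S, (1 - 1 / ((p : ℝ) - 1)) = 1 := by
      rw [← prod_mul_distrib]
      refine prod_eq_one fun p hp => ?_
      have h7 := hd7 p (hSd hp)
      have h8 : (p : ℝ) - 2 ≠ 0 := by linarith
      have h9 : (p : ℝ) - 1 ≠ 0 := by linarith
      field_simp
      ring
    have hS3 : ∏ p ∈ S, ((p : ℝ) - 1) / (p - 2) ≤ ∏ p ∈ d.primeFactors, ((p : ℝ) - 1) / (p - 2) :=
      prod_le_prod_of_subset_of_one_le hSd (fun p hp => by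
        have := hge1 p (hSd hp)
        linarith) fun p hp _ => hge1 p hp
    have hS4 : 0 ≤ ∏ p ∈ S, ((p : ℝ) - 1) / (p - 2) :=
      prod_nonneg fun p hp => by
        have := hge1 p (hSd hp)
        linarith
    calc ∑ D ∈ P.powerset with Disjoint D S, l (∏ p ∈ D, p) * ∏ p ∈ D, 1 / ((p : ℝ) - 1)
        = (∏ p ∈ S, ((p : ℝ) - 1) / (p - 2)) * ((∏ p ∈ S, (1 - 1 / ((p : ℝ) - 1))) *
          ∑ D ∈ P.powerset with Disjoint D S, l (∏ p ∈ D, p) * ∏ p ∈ D, 1 / ((p : ℝ) - 1)) := by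
          rw [← mul_assoc, hS2, one_mul]
      _ ≤ (∏ p ∈ S, ((p : ℝ) - 1) / (p - 2)) * mt Q l := mul_le_mul_of_nonneg_left h3 hS4
      _ ≤ (∏ p ∈ d.primeFactors, ((p : ℝ) - 1) / (p - 2)) * mt Q l :=
          mul_le_mul_of_nonneg_right hS3 hmt0
  have hc0 : 0 ≤ ∏ p ∈ P, ((p : ℝ) - 1) ^ 2 / (p * (p - 2)) := by
    refine prod_nonneg fun p hp => ?_
    have := hp7r p hp
    apply div_nonneg (sq_nonneg _)
    apply mul_nonneg <;> linarith
  have hd0 : 0 ≤ ∏ p ∈ d.primeFactors, ((p : ℝ) - 1) / (p - 2) :=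
    prod_nonneg fun p hp => by
      have := hge1 p hp
      linarith
  refine h1.trans ?_
  rw [hη1]
  calc (∏ p ∈ P, ((p : ℝ) - 1) ^ 2 / (p * (p - 2))) *
        ((∑ D ∈ P.powerset, ξ D * ∏ p ∈ D, 1 / ((p : ℝ) - 1)) * mt Q' lam)
      ≤ (∏ p ∈ P, ((p : ℝ) - 1) ^ 2 / (p * (p - 2))) *
        (((∏ p ∈ d.primeFactors, ((p : ℝ) - 1) / (p - 2)) * mt Q l) * mt Q' lam) :=
        mul_le_mul_of_nonneg_left (mul_le_mul_of_nonneg_right h4 hmt0') hc0
    _ ≤ 2 * (((∏ p ∈ d.primeFactors, ((p : ℝ) - 1) / (p - 2)) * mt Q l) * mt Q' lam) :=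
        mul_le_mul_of_nonneg_right h2 (mul_nonneg (mul_nonneg hd0 hmt0) hmt0')
    _ = 2 * (∏ p ∈ d.primeFactors, ((p : ℝ) - 1) / (p - 2)) * (mt Q l * mt Q' lam) := by ring

end Pool.Agent.EC
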